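import Pool.Agent.H72.TG.Univ

/-!
# MP_686501_lc: tame non-archimedean abelian Polish groups inside tame products

The definition `TamePolish.Tame` is in `Pool/Agent/H72/TG/Stmt.lean`.
-/

open Topology

universe u v w

/-- Every tame non-archimedean abelian Polish group `G` is isomorphic to a closed subgroup of a tame
countable product of countable discrete abelian groups. The group `G` and the Polish spaces on which
the groups act may live in arbitrary universes. -/
theorem Pool.Agent.Results.MP_686501_lc.TameEmbedding.result :
    ∀ (G : Type u) [AddCommGroup G] [TopologicalSpace G] [PolishSpace G]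
      [NonarchimedeanAddGroup G], TamePolish.Tame.{u, v} G →
    ∃ (H : ℕ → Type) (_ : ∀ n, AddCommGroup (H n)) (_ : ∀ n, TopologicalSpace (H n)),
      (∀ n, DiscreteTopology (H n)) ∧ (∀ n, Countable (H n)) ∧
      TamePolish.Tame.{0, w} ((n : ℕ) → H n) ∧
      ∃ f : G →+ ((n : ℕ) → H n), IsClosedEmbedding f :=
  fun G _ _ _ _ hG => TamePolish.main G hG
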